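import Pool.Agent.H6.Splitting

set_option autoImplicit false

namespace Pool.Agent.Results.MP_59a3d4_lc.NoGoodSplitting

open Pool.Agent.H6.Splitting Finsupp

/-- `B` is a basis of `R`: linearly independent and spanning. -/
def IsBasisSet (F R : Type) [Field F] [AddCommGroup R] [Module F R] (B : Set R) : Prop :=
  LinearIndependent F ((↑) : B → R) ∧ Submodule.span F B = ⊤

/-- `B = B₁ ⊔ B₂` is a partition with `V₁ ⊕ sp(B₁) = R = V₂ ⊕ sp(B₂)`. -/
def IsGoodSplitting {F R : Type} [Field F] [AddCommGroup R] [Module F R]
    (V₁ V₂ : Submodule F R) (B B₁ B₂ : Set R) : Prop :=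
  B₁ ∪ B₂ = B ∧ Disjoint B₁ B₂ ∧
    IsCompl V₁ (Submodule.span F B₁) ∧ IsCompl V₂ (Submodule.span F B₂)

/-- The vector over the field with two elements coded by a list of bits. -/
noncomputable def vec (l : List Bool) : ℕ →₀ ZMod 2 :=
  ∑ n ∈ Finset.range l.length, Finsupp.single n (if l.getD n false = true then 1 else 0)

/-- Coordinatewise sum of two bit lists. -/
def addCode (l m : List Bool) : List Bool :=
  (List.range (l.length + m.length)).map (fun n => xor (l.getD n false) (m.getD n false))

theorem getD_of_le (l : List Bool) (n : ℕ) (h : l.length ≤ n) : l.getD n false = false := by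
  rw [List.getD_eq_getElem?_getD, List.getElem?_eq_none h]
  rfl

theorem vec_apply (l : List Bool) (n : ℕ) :
    vec l n = if l.getD n false = true then 1 else 0 := by
  rw [vec, Finsupp.finsetSum_apply]
  by_cases hn : n < l.length
  · rw [Finset.sum_eq_single_of_mem n (Finset.mem_range.2 hn)]
    · simp
    · intro b _ hb
      rw [single_apply, if_neg hb]
  · rw [getD_of_le l n (not_lt.1 hn)]
    simp only [Bool.false_eq_true, if_false]
    apply Finset.sum_eq_zero
    intro b hb
    rw [single_apply, if_neg]
    rintro rfl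
    exact hn (Finset.mem_range.1 hb)

theorem vec_surj : Function.Surjective vec := by
  intro x
  obtain ⟨M, hM⟩ : ∃ M, ∀ n, M ≤ n → x n = 0 := by
    refine ⟨(x.support.sup id) + 1, fun n hn => ?_⟩
    by_contra hne
    have : n ≤ x.support.sup id := Finset.le_sup (f := id) (Finsupp.mem_support_iff.2 hne)
    omega
  refine ⟨(List.range M).map (fun n => decide (x n = 1)), ?_⟩
  ext n
  rw [vec_apply]
  have h2 : ∀ a : ZMod 2, (if a = 1 then (1 : ZMod 2) else 0) = a := by decide
  by_cases hn : n < M
  · rw [List.getD_eq_getElem?_getD, List.getElem?_map, List.getElem?_range hn]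
    simp only [Option.map_some, Option.getD_some, decide_eq_true_eq]
    exact h2 _
  · rw [getD_of_le _ _ (by simpa using not_lt.1 hn), hM n (not_lt.1 hn)]
    simp

theorem getD_addCode (l m : List Bool) (n : ℕ) :
    (addCode l m).getD n false = xor (l.getD n false) (m.getD n false) := by
  by_cases hn : n < l.length + m.length
  · rw [addCode, List.getD_eq_getElem?_getD, List.getElem?_map, List.getElem?_range hn]
    rfl
  · rw [getD_of_le, getD_of_le l n (by omega), getD_of_le m n (by omega)]
    · rfl
    · simp only [addCode, List.length_map, List.length_range]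
      omega

theorem vec_addCode (l m : List Bool) : vec (addCode l m) = vec l + vec m := by
  ext n
  rw [Finsupp.add_apply, vec_apply, vec_apply, vec_apply, getD_addCode]
  generalize l.getD n false = a
  generalize m.getD n false = b
  revert a b
  decide

theorem vec_eq_iff (l m : List Bool) :
    vec l = vec m ↔ ∀ n < l.length + m.length, l.getD n false = m.getD n false := by
  have h2 : ∀ a b : Bool, (if a = true then (1 : ZMod 2) else 0) = (if b = true then 1 else 0) ↔
      a = b := by decide
  constructor
  · intro h n _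
    have := DFunLike.congr_fun h n
    rw [vec_apply, vec_apply, h2] at this
    exact this
  · intro h
    ext n
    rw [vec_apply, vec_apply, h2]
    by_cases hn : n < l.length + m.length
    · exact h n hn
    · rw [getD_of_le l n (by omega), getD_of_le m n (by omega)]

theorem bforall {α : Type} [Primcodable α] {R : ℕ → α → Prop} (hR : PrimrecRel R) {f : α → ℕ}
    (hf : Primrec f) : PrimrecPred fun a => ∀ x < f a, R x a := by
  have h := PrimrecRel.comp (R := fun (L : List ℕ) y => ∀ x ∈ L, R x y) hR.forall_mem_list
    (f := fun a => List.range (f a)) (Primrec.list_range.comp hf) (g := fun a : α => a) Primrec.id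
  exact h.of_eq fun a => by simp

theorem bexists {α : Type} [Primcodable α] {R : ℕ → α → Prop} (hR : PrimrecRel R) {f : α → ℕ}
    (hf : Primrec f) : PrimrecPred fun a => ∃ x < f a, R x a := by
  have h := PrimrecRel.comp (R := fun (L : List ℕ) y => ∃ x ∈ L, R x y) hR.exists_mem_list
    (f := fun a => List.range (f a)) (Primrec.list_range.comp hf) (g := fun a : α => a) Primrec.id
  exact h.of_eq fun a => by simp

theorem xor_prim : Primrec₂ xor := Primrec.dom_finite _

theorem addCode_comp : Computable₂ addCode := by
  apply Primrec₂.to_comp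
  have h1 : Primrec₂ (fun (p : List Bool × List Bool) (n : ℕ) =>
      xor (p.1.getD n false) (p.2.getD n false)) := by
    refine (xor_prim.comp₂ ?_ ?_)
    · exact (Primrec.list_getD false).comp₂ (Primrec.fst.comp₂ Primrec₂.left) Primrec₂.right
    · exact (Primrec.list_getD false).comp₂ (Primrec.snd.comp₂ Primrec₂.left) Primrec₂.right
  have h2 : Primrec (fun p : List Bool × List Bool => List.range (p.1.length + p.2.length)) :=
    Primrec.list_range.comp (Primrec.nat_add.comp (Primrec.list_length.comp Primrec.fst)
      (Primrec.list_length.comp Primrec.snd))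
  exact (Primrec.list_map h2 h1).to₂

theorem eq_comp : ComputablePred (fun p : List Bool × List Bool => vec p.1 = vec p.2) := by
  apply PrimrecPred.computablePred
  have h1 : PrimrecRel (fun (n : ℕ) (p : List Bool × List Bool) =>
      p.1.getD n false = p.2.getD n false) := by
    refine Primrec.eq.comp₂ ?_ ?_
    · exact (Primrec.list_getD false).comp₂ (Primrec.fst.comp₂ Primrec₂.right) Primrec₂.left
    · exact (Primrec.list_getD false).comp₂ (Primrec.snd.comp₂ Primrec₂.right) Primrec₂.left
  have h2 : Primrec (fun p : List Bool × List Bool => p.1.length + p.2.length) :=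
    Primrec.nat_add.comp (Primrec.list_length.comp Primrec.fst)
      (Primrec.list_length.comp Primrec.snd)
  refine (bforall h1 h2).of_eq ?_
  intro p
  exact (vec_eq_iff p.1 p.2).symm

theorem mem_V1_iff (l : List Bool) : vec l ∈ V1 (ZMod 2) ↔ (l.getD 0 false = false ∧
    ∀ j < l.length, l.getD (2 * (j + 1)) false =
      xor (l.getD (2 * j) false) (l.getD (2 * j + 1) false)) := by
  have h2 : ∀ a b c : Bool, (if a = true then (1 : ZMod 2) else 0) =
      (if b = true then 1 else 0) + (if c = true then 1 else 0) ↔ a = xor b c := by decide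
  have h3 : ∀ a : Bool, (if a = true then (1 : ZMod 2) else 0) = 0 ↔ a = false := by decide
  rw [mem_V1, vec_apply, h3]
  refine and_congr Iff.rfl ?_
  constructor
  · intro h j _
    have := h j
    rw [vec_apply, vec_apply, vec_apply, h2] at this
    exact this
  · intro h j
    rw [vec_apply, vec_apply, vec_apply, h2]
    by_cases hj : j < l.length
    · exact h j hj
    · rw [getD_of_le l (2 * (j + 1)) (by omega), getD_of_le l (2 * j) (by omega),
        getD_of_le l (2 * j + 1) (by omega)]
      rfl

theorem mem_V2_iff (l : List Bool) : vec l ∈ V2 (ZMod 2) ↔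
    ∀ j < l.length, l.getD (2 * j) false = l.getD (2 * j + 1) false := by
  have h2 : ∀ a b : Bool, (if a = true then (1 : ZMod 2) else 0) +
      (if b = true then 1 else 0) = 0 ↔ a = b := by decide
  rw [mem_V2]
  constructor
  · intro h j _
    have := h j
    rw [vec_apply, vec_apply, h2] at this
    exact this
  · intro h j
    rw [vec_apply, vec_apply, h2]
    by_cases hj : j < l.length
    · exact h j hj
    · rw [getD_of_le l (2 * j) (by omega), getD_of_le l (2 * j + 1) (by omega)]

theorem V1_comp : ComputablePred (fun l : List Bool => vec l ∈ V1 (ZMod 2)) := by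
  apply PrimrecPred.computablePred
  have hg : ∀ {f : ℕ → ℕ}, Primrec f → Primrec₂ (fun (n : ℕ) (l : List Bool) =>
      l.getD (f n) false) := by
    intro f hf
    exact (Primrec.list_getD false).comp₂ Primrec₂.right (hf.comp₂ Primrec₂.left)
  have f1 : Primrec (fun n : ℕ => 2 * (n + 1)) :=
    Primrec.nat_mul.comp (Primrec.const 2) Primrec.succ
  have f2 : Primrec (fun n : ℕ => 2 * n) := Primrec.nat_mul.comp (Primrec.const 2) Primrec.id
  have f3 : Primrec (fun n : ℕ => 2 * n + 1) := Primrec.succ.comp f2
  have h1 : PrimrecRel (fun (j : ℕ) (l : List Bool) => l.getD (2 * (j + 1)) false =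
      xor (l.getD (2 * j) false) (l.getD (2 * j + 1) false)) :=
    Primrec.eq.comp₂ (hg f1) (xor_prim.comp₂ (hg f2) (hg f3))
  have h2 : PrimrecPred (fun l : List Bool => l.getD 0 false = false) :=
    Primrec.eq.comp ((Primrec.list_getD false).comp Primrec.id (Primrec.const 0))
      (Primrec.const false)
  have h3 : PrimrecPred (fun l : List Bool => ∀ j < l.length, l.getD (2 * (j + 1)) false =
      xor (l.getD (2 * j) false) (l.getD (2 * j + 1) false)) :=
    bforall h1 Primrec.list_length
  exact (h2.and h3).of_eq fun l => (mem_V1_iff l).symm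

theorem V2_comp : ComputablePred (fun l : List Bool => vec l ∈ V2 (ZMod 2)) := by
  apply PrimrecPred.computablePred
  have hg : ∀ {f : ℕ → ℕ}, Primrec f → Primrec₂ (fun (n : ℕ) (l : List Bool) =>
      l.getD (f n) false) := by
    intro f hf
    exact (Primrec.list_getD false).comp₂ Primrec₂.right (hf.comp₂ Primrec₂.left)
  have f2 : Primrec (fun n : ℕ => 2 * n) := Primrec.nat_mul.comp (Primrec.const 2) Primrec.id
  have f3 : Primrec (fun n : ℕ => 2 * n + 1) := Primrec.succ.comp f2
  have h1 : PrimrecRel (fun (j : ℕ) (l : List Bool) => l.getD (2 * j) false =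
      l.getD (2 * j + 1) false) := Primrec.eq.comp₂ (hg f2) (hg f3)
  have h3 : PrimrecPred (fun l : List Bool => ∀ j < l.length, l.getD (2 * j) false =
      l.getD (2 * j + 1) false) := bforall h1 Primrec.list_length
  exact h3.of_eq fun l => (mem_V2_iff l).symm

theorem mem_B_iff (l : List Bool) : vec l ∈ stdB (ZMod 2) ↔
    ∃ n < l.length, l.getD n false = true ∧ ∀ m < l.length, (m = n ∨ l.getD m false = false) := by
  have h3 : ∀ a : Bool, (if a = true then (1 : ZMod 2) else 0) = 0 ↔ a = false := by decide
  have h4 : ∀ a : Bool, (if a = true then (1 : ZMod 2) else 0) = 1 ↔ a = true := by decide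
  constructor
  · rintro ⟨n, hn⟩
    have hv : ∀ k, vec l k = if n = k then 1 else 0 := by
      intro k
      rw [← hn]
      exact single_apply
    have h5 := hv n
    rw [vec_apply, if_pos rfl, h4] at h5
    refine ⟨n, ?_, h5, ?_⟩
    · by_contra h
      rw [getD_of_le l n (not_lt.1 h)] at h5
      exact Bool.false_ne_true h5
    · intro m _
      by_cases hm : m = n
      · exact Or.inl hm
      · right
        have h6 := hv m
        have h7 : ¬ n = m := fun h => hm h.symm
        rw [if_neg h7, vec_apply, h3] at h6
        exact h6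
  · rintro ⟨n, _, h1, h2⟩
    refine ⟨n, ?_⟩
    ext k
    show single n (1 : ZMod 2) k = vec l k
    rw [vec_apply, single_apply]
    by_cases hk : n = k
    · subst hk
      rw [if_pos rfl, h1, if_pos rfl]
    · rw [if_neg hk]
      symm
      rw [h3]
      by_cases hkl : k < l.length
      · exact (h2 k hkl).resolve_left (fun h => hk h.symm)
      · exact getD_of_le l k (not_lt.1 hkl)

theorem B_comp : ComputablePred (fun l : List Bool => vec l ∈ stdB (ZMod 2)) := by
  apply PrimrecPred.computablePred
  have h1 : PrimrecRel (fun (m : ℕ) (p : ℕ × List Bool) => m = p.1 ∨ p.2.getD m false = false) := by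
    refine PrimrecPred.or ?_ ?_
    · exact Primrec.eq.comp Primrec.fst (Primrec.fst.comp Primrec.snd)
    · exact Primrec.eq.comp ((Primrec.list_getD false).comp (Primrec.snd.comp Primrec.snd)
        Primrec.fst) (Primrec.const false)
  have h2 : PrimrecPred (fun p : ℕ × List Bool => ∀ m < p.2.length,
      (m = p.1 ∨ p.2.getD m false = false)) :=
    bforall h1 (Primrec.list_length.comp Primrec.snd)
  have h3 : PrimrecPred (fun p : ℕ × List Bool => p.2.getD p.1 false = true) :=
    Primrec.eq.comp ((Primrec.list_getD false).comp Primrec.snd Primrec.fst) (Primrec.const true)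
  have h4 : PrimrecRel (fun (n : ℕ) (l : List Bool) => l.getD n false = true ∧
      ∀ m < l.length, (m = n ∨ l.getD m false = false)) := h3.and h2
  have h5 := bexists h4 (Primrec.list_length (α := Bool))
  exact h5.of_eq fun l => (mem_B_iff l).symm

/-- Over every field there is a decomposition `R = V₁ ⊕ V₂` of a space of countably infinite
dimension and a basis with no good splitting; over the field with two elements, in the standard
computable coding of vectors by bit lists, `V₁`, `V₂` and the basis can be taken decidable. -/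
theorem result :
    (∀ (F : Type) [Field F], ∃ (V₁ V₂ : Submodule F (ℕ →₀ F)) (B : Set (ℕ →₀ F)),
      IsBasisSet F (ℕ →₀ F) B ∧ IsCompl V₁ V₂ ∧ ¬ ∃ B₁ B₂, IsGoodSplitting V₁ V₂ B B₁ B₂) ∧
    (Function.Surjective vec ∧ Computable₂ addCode ∧
      (∀ l m, vec (addCode l m) = vec l + vec m) ∧
      ComputablePred (fun p : List Bool × List Bool => vec p.1 = vec p.2)) ∧
    (∃ (V₁ V₂ : Submodule (ZMod 2) (ℕ →₀ ZMod 2)) (B : Set (ℕ →₀ ZMod 2)),
      IsBasisSet (ZMod 2) (ℕ →₀ ZMod 2) B ∧ IsCompl V₁ V₂ ∧
      ComputablePred (fun l : List Bool => vec l ∈ V₁) ∧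
      ComputablePred (fun l : List Bool => vec l ∈ V₂) ∧
      ComputablePred (fun l : List Bool => vec l ∈ B) ∧
      ¬ ∃ B₁ B₂, IsGoodSplitting V₁ V₂ B B₁ B₂) := by
  have H : ∀ (F : Type) [Field F], ¬ ∃ B₁ B₂, IsGoodSplitting (V1 F) (V2 F) (stdB F) B₁ B₂ := by
    rintro F _ ⟨B₁, B₂, h1, h2, h3, h4⟩
    exact no_splitting B₁ B₂ h1 h2 h3 h4
  refine ⟨fun F _ => ⟨V1 F, V2 F, stdB F, ⟨stdB_indep, stdB_span⟩, isCompl, H F⟩,
    ⟨vec_surj, addCode_comp, vec_addCode, eq_comp⟩,
    V1 (ZMod 2), V2 (ZMod 2), stdB (ZMod 2), ⟨stdB_indep, stdB_span⟩, isCompl, V1_comp, V2_comp,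
    B_comp, H (ZMod 2)⟩

end Pool.Agent.Results.MP_59a3d4_lc.NoGoodSplitting
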